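import Mathlib

/-!
# MP_35fef3_co: the top h-number cannot always be lowered by one

For `d, n ≥ 2` let `M = U_{1,n} ⊕ ... ⊕ U_{1,n}` (`d` summands). Then `h_d(M) = (n-1)^d`, while every
matroid whose bases are bases of `M` has top h-number `∏ (a_i - 1)` with `1 ≤ a_i ≤ n`.
-/

set_option autoImplicit false

namespace Pool.Agent.Results.MP_35fef3_co.TopGap

open Set

/-- `f_{i-1}(M)`: the number of independent sets of size `i` -/
noncomputable def numIndep {α : Type} (M : Matroid α) (i : ℕ) : ℕ :=
  {I : Set α | M.Indep I ∧ I.ncard = i}.ncard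

/-- the top entry of the h-vector: `h_d(M) = ∑_{i=0}^{d} (-1)^(d-i) f_{i-1}(M)`, `d` the rank -/
noncomputable def hTop {α : Type} (M : Matroid α) : ℤ :=
  ∑ i ∈ Finset.range (M.eRank.toNat + 1), (-1 : ℤ) ^ (M.eRank.toNat - i) * (numIndep M i : ℤ)

/-- the direct sum of `d` copies of `U_{1,n}`: the classes are the sets `{i} × Fin n` -/
def sumU (d n : ℕ) : Matroid (Fin d × Fin n) := (Matroid.freeOn (univ : Set (Fin d))).comap Prod.fst

theorem sumU_indep {d n : ℕ} {I : Set (Fin d × Fin n)} :
    (sumU d n).Indep I ↔ InjOn Prod.fst I := by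
  unfold sumU
  rw [Matroid.comap_indep_iff, Matroid.freeOn_indep_iff]
  simp

theorem sumU_ground {d n : ℕ} : (sumU d n).E = univ := by
  unfold sumU
  simp

theorem sumU_isBase {d n : ℕ} (hn : 0 < n) {B : Set (Fin d × Fin n)} (hB : (sumU d n).IsBase B) :
    InjOn Prod.fst B ∧ ∀ i : Fin d, ∃ x : Fin n, (i, x) ∈ B := by
  refine ⟨sumU_indep.1 hB.indep, ?_⟩
  intro i
  by_contra hcon
  push Not at hcon
  have hins : (sumU d n).Indep (insert (i, ⟨0, hn⟩) B) := by
    rw [sumU_indep]
    intro a ha b hb hab
    rcases ha with rfl | ha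
    · rcases hb with rfl | hb
      · rfl
      · exfalso
        obtain ⟨b1, b2⟩ := b
        simp only at hab
        subst hab
        exact hcon b2 hb
    · rcases hb with rfl | hb
      · exfalso
        obtain ⟨a1, a2⟩ := a
        simp only at hab
        subst hab
        exact hcon a2 ha
      · exact sumU_indep.1 hB.indep ha hb hab
  have := hB.eq_of_subset_indep hins (subset_insert _ _)
  have hmem : (i, (⟨0, hn⟩ : Fin n)) ∈ B := by
    rw [this]
    exact mem_insert _ _
  exact hcon _ hmem

section sub

variable {d n : ℕ} (hn : 0 < n) (N : Matroid (Fin d × Fin n)) (hN : ∀ B, N.IsBase B → (sumU d n).IsBase B)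

include hn hN in
/-- the independent sets of a matroid whose bases are bases of `sumU d n` -/
theorem indep_iff (I : Set (Fin d × Fin n)) :
    N.Indep I ↔ InjOn Prod.fst I ∧ ∀ e ∈ I, N.Indep {e} := by
  constructor
  · intro h
    obtain ⟨B, hB, hIB⟩ := h.exists_isBase_superset
    exact ⟨(sumU_isBase hn (hN B hB)).1.mono hIB, fun e he => h.subset (singleton_subset_iff.2 he)⟩
  · rintro ⟨hinj, hloop⟩
    have hfin : I.Finite := toFinite I
    induction I, hfin using Set.Finite.induction_on with
    | empty => exact N.empty_indep
    | @insert e J heJ hJ ih =>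
      have hJi : N.Indep J := ih (hinj.mono (subset_insert _ _))
        (fun x hx => hloop x (mem_insert_of_mem _ hx))
      obtain ⟨B, hB, hJB⟩ := hJi.exists_isBase_superset
      obtain ⟨B', hB', heB', hB'B⟩ :=
        (hloop e (mem_insert _ _)).exists_isBase_subset_union_isBase hB
      refine hB'.indep.subset ?_
      rintro x (rfl | hx)
      · exact heB' rfl
      · obtain ⟨y, hy⟩ := (sumU_isBase hn (hN B' hB')).2 x.1
        rcases hB'B hy with h | h
        · exfalso
          rw [mem_singleton_iff] at h
          have h1 : x = e := hinj (mem_insert_of_mem _ hx) (mem_insert _ _) (by rw [← h])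
          exact heJ (h1 ▸ hx)
        · have h1 : (x.1, y) = x := (sumU_isBase hn (hN B hB)).1 h (hJB hx) rfl
          rw [← h1]
          exact hy

open Classical in
/-- the independent sets as finite sets -/
noncomputable def indepF (N : Matroid (Fin d × Fin n)) : Finset (Finset (Fin d × Fin n)) :=
  Finset.univ.filter (fun I : Finset (Fin d × Fin n) => N.Indep (I : Set (Fin d × Fin n)))

open Classical in
theorem mem_indepF {N : Matroid (Fin d × Fin n)} {I : Finset (Fin d × Fin n)} :
    I ∈ indepF N ↔ N.Indep (I : Set (Fin d × Fin n)) := by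
  unfold indepF
  rw [Finset.mem_filter]
  simp

open Classical in
/-- the non-loops of the class `i` -/
noncomputable def cls (N : Matroid (Fin d × Fin n)) (i : Fin d) : Finset (Fin n) :=
  Finset.univ.filter (fun x => N.Indep {(i, x)})

include hn hN in
theorem eRank_eq : N.eRank = d := by
  obtain ⟨B, hB⟩ := N.exists_isBase
  rw [← hB.encard_eq_eRank]
  obtain ⟨h1, h2⟩ := sumU_isBase hn (hN B hB)
  have h3 : (Prod.fst '' B).encard = B.encard := h1.encard_image
  have h4 : Prod.fst '' B = (univ : Set (Fin d)) := by
    ext i
    simp only [mem_image, mem_univ, iff_true]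
    obtain ⟨x, hx⟩ := h2 i
    exact ⟨(i, x), hx, rfl⟩
  rw [← h3, h4, encard_univ, ENat.card_eq_coe_fintype_card, Fintype.card_fin]

open Classical in
include hn hN in
theorem one_le_cls (i : Fin d) : 1 ≤ (cls N i).card := by
  obtain ⟨B, hB⟩ := N.exists_isBase
  obtain ⟨x, hx⟩ := (sumU_isBase hn (hN B hB)).2 i
  rw [Nat.one_le_iff_ne_zero, Finset.card_ne_zero]
  refine ⟨x, ?_⟩
  unfold cls
  rw [Finset.mem_filter]
  exact ⟨Finset.mem_univ _, hB.indep.subset (singleton_subset_iff.2 hx)⟩

open Classical in
include hn hN in
theorem hTop_eq_sum : hTop N = ∑ I ∈ indepF N, (-1 : ℤ) ^ (d - I.card) := by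
  have hr : N.eRank.toNat = d := by rw [eRank_eq hn N hN]; rfl
  unfold hTop
  rw [hr]
  have hnum : ∀ i, numIndep N i = ((indepF N).filter (fun I => I.card = i)).card := by
    intro i
    unfold numIndep
    rw [← Set.ncard_coe_finset]
    symm
    apply Set.ncard_congr (fun (I : Finset (Fin d × Fin n)) _ => (I : Set (Fin d × Fin n)))
    · intro I hI
      simp only [Finset.coe_filter, mem_indepF,
        Set.mem_ofPred_eq] at hI ⊢
      exact ⟨hI.1, by rw [Set.ncard_coe_finset]; exact hI.2⟩
    · intro I J _ _ h
      exact Finset.coe_injective h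
    · intro I hI
      refine ⟨(toFinite I).toFinset, ?_, ?_⟩
      · simp only [Finset.coe_filter, mem_indepF,
          Set.mem_ofPred_eq, Set.Finite.coe_toFinset] at hI ⊢
        exact ⟨hI.1, by rw [← hI.2, Set.ncard_eq_toFinset_card I]⟩
      · exact (toFinite I).coe_toFinset
  have hle : ∀ I ∈ indepF N, I.card ∈ Finset.range (d + 1) := by
    intro I hI
    rw [mem_indepF] at hI
    have h1 := hI.encard_le_eRank
    rw [eRank_eq hn N hN, Set.encard_coe_eq_coe_finsetCard] at h1
    rw [Finset.mem_range]
    have h2 : I.card ≤ d := by exact_mod_cast h1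
    omega
  rw [← Finset.sum_fiberwise_of_maps_to hle]
  apply Finset.sum_congr rfl
  intro i _
  rw [hnum i]
  rw [Finset.sum_congr rfl (g := fun _ => (-1 : ℤ) ^ (d - i))]
  · rw [Finset.sum_const, nsmul_eq_mul]
    ring
  · intro I hI
    rw [Finset.mem_filter] at hI
    rw [hI.2]

open Classical in
include hn hN in
/-- the top h-number is a product over the classes -/
theorem hTop_eq_prod : hTop N = ∏ i : Fin d, (((cls N i).card : ℤ) - 1) := by
  rw [hTop_eq_sum hn N hN]
  have hprod : ∏ i : Fin d, (((cls N i).card : ℤ) - 1) =
      ∏ i : Fin d, ∑ x ∈ Finset.insertNone (cls N i), (if x = none then (-1 : ℤ) else 1) := by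
    apply Finset.prod_congr rfl
    intro i _
    rw [Finset.sum_insertNone]
    simp
    ring
  rw [hprod, Finset.prod_univ_sum]
  -- bijection between independent sets and choice functions
  apply Finset.sum_bij' (i := fun I _ => fun i : Fin d =>
      if h : ∃ x : Fin n, (i, x) ∈ I then some h.choose else none)
    (j := fun p _ => (Finset.univ : Finset (Fin d × Fin n)).filter (fun e => p e.1 = some e.2))
  · -- maps into the choice functions
    intro I hI
    rw [mem_indepF] at hI
    rw [Fintype.mem_piFinset]
    intro i
    split_ifs with h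
    · rw [Finset.mem_insertNone]
      intro a ha
      rw [Option.mem_some_iff] at ha
      subst ha
      unfold cls
      rw [Finset.mem_filter]
      exact ⟨Finset.mem_univ _, hI.subset (singleton_subset_iff.2 h.choose_spec)⟩
    · exact Finset.none_mem_insertNone
  · -- maps into the independent sets
    intro p hp
    rw [Fintype.mem_piFinset] at hp
    rw [mem_indepF]
    rw [indep_iff hn N hN]
    constructor
    · intro a ha b hb hab
      simp only [Finset.coe_filter, Finset.mem_univ, true_and, Set.mem_ofPred_eq] at ha hb
      rw [hab] at ha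
      rw [ha] at hb
      exact Prod.ext hab (Option.some_injective _ hb)
    · intro e he
      simp only [Finset.coe_filter, Finset.mem_univ, true_and, Set.mem_ofPred_eq] at he
      have h1 := hp e.1
      rw [he, Finset.some_mem_insertNone] at h1
      unfold cls at h1
      rw [Finset.mem_filter] at h1
      exact h1.2
  · -- left inverse
    intro I hI
    rw [mem_indepF] at hI
    have hinj := ((indep_iff hn N hN _).1 hI).1
    ext ⟨i, x⟩
    simp only [Finset.mem_filter, Finset.mem_univ, true_and]
    constructor
    · intro h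
      split_ifs at h with h1
      · have h2 := h1.choose_spec
        rw [Option.some_injective _ h] at h2
        exact h2
    · intro h
      have h1 : ∃ x : Fin n, (i, x) ∈ I := ⟨x, h⟩
      rw [dif_pos h1]
      have h2 := h1.choose_spec
      have h3 := hinj (Finset.mem_coe.2 h2) (Finset.mem_coe.2 h) rfl
      exact congrArg some (Prod.ext_iff.1 h3).2
  · -- right inverse
    intro p hp
    funext i
    split_ifs with h
    · have h1 := h.choose_spec
      rw [Finset.mem_filter] at h1
      exact h1.2.symm
    · rcases hx : p i with _ | x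
      · rfl
      · exfalso
        exact h ⟨x, by rw [Finset.mem_filter]; exact ⟨Finset.mem_univ _, hx⟩⟩
  · -- the weights agree
    intro I hI
    rw [mem_indepF] at hI
    have hinj := ((indep_iff hn N hN _).1 hI).1
    have h1 : ∏ i : Fin d, (if (if h : ∃ x : Fin n, (i, x) ∈ I then some h.choose else none) =
        (none : Option (Fin n)) then (-1 : ℤ) else 1) =
        ∏ i : Fin d, (if i ∈ (Finset.univ : Finset (Fin d)) \ I.image Prod.fst then (-1 : ℤ) else 1) := by
      apply Finset.prod_congr rfl
      intro i _
      by_cases h : ∃ x : Fin n, (i, x) ∈ I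
      · rw [dif_pos h, if_neg (by simp), if_neg]
        rw [Finset.mem_sdiff, Finset.mem_image, not_and, not_not]
        intro _
        obtain ⟨x, hx⟩ := h
        exact ⟨(i, x), hx, rfl⟩
      · rw [dif_neg h, if_pos rfl, if_pos]
        rw [Finset.mem_sdiff, Finset.mem_image]
        refine ⟨Finset.mem_univ _, ?_⟩
        rintro ⟨⟨i', x⟩, hx, rfl⟩
        exact h ⟨x, hx⟩
    rw [h1, Finset.prod_ite_mem, Finset.univ_inter, Finset.prod_const,
      Finset.card_sdiff_of_subset (Finset.subset_univ _), Finset.card_univ, Fintype.card_fin,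
      Finset.card_image_of_injOn hinj]

end sub

open Classical in
/-- **The top h-number cannot always be lowered by one.** For every rank `d ≥ 2` and every `g` there
is a matroid `M` of rank `d` with `h_d(M) ≥ 1` such that no matroid on the same ground set whose
bases are bases of `M` has top h-number `h_d(M) - k` with `1 ≤ k ≤ g`. -/
theorem result : ∀ d : ℕ, 2 ≤ d → ∀ g : ℕ, ∃ (α : Type) (_ : Fintype α) (M : Matroid α),
    M.E = Set.univ ∧ M.eRank = d ∧ 1 ≤ hTop M ∧
      ∀ N : Matroid α, N.E = Set.univ → (∀ B, N.IsBase B → M.IsBase B) →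
        ∀ k : ℕ, 1 ≤ k → k ≤ g → hTop N ≠ hTop M - k := by
  intro d hd g
  set n := g + 3 with hn
  have hn0 : 0 < n := by omega
  have hM := hTop_eq_prod hn0 (sumU d n) (fun B hB => hB)
  have hcls : ∀ i : Fin d, (cls (sumU d n) i).card = n := by
    intro i
    have : cls (sumU d n) i = Finset.univ := by
      unfold cls
      rw [Finset.filter_true_of_mem]
      intro x _
      rw [sumU_indep]
      exact injOn_singleton _ _
    rw [this, Finset.card_univ, Fintype.card_fin]
  have hMv : hTop (sumU d n) = ((g : ℤ) + 2) ^ d := by
    rw [hM, Finset.prod_congr rfl (fun i _ => by rw [hcls i]), Finset.prod_const,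
      Finset.card_univ, Fintype.card_fin, hn]
    push_cast
    ring
  refine ⟨Fin d × Fin n, inferInstance, sumU d n, sumU_ground,
    eRank_eq hn0 _ (fun B hB => hB), ?_, ?_⟩
  · rw [hMv]
    exact one_le_pow₀ (by omega)
  · intro N _ hN k hk hkg
    have hNv := hTop_eq_prod hn0 N hN
    have hle : ∀ i : Fin d, (cls N i).card ≤ n := by
      intro i
      have := Finset.card_le_univ (cls N i)
      rwa [Fintype.card_fin] at this
    by_cases hall : ∀ i : Fin d, (cls N i).card = n
    · have : hTop N = hTop (sumU d n) := by
        rw [hNv, hM]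
        exact Finset.prod_congr rfl (fun i _ => by rw [hall i, hcls i])
      rw [this]
      omega
    · push Not at hall
      obtain ⟨i₀, hi₀⟩ := hall
      have h1 : (cls N i₀).card ≤ g + 2 := by
        have := hle i₀
        omega
      have h2 : hTop N ≤ ((g : ℤ) + 1) * ((g : ℤ) + 2) ^ (d - 1) := by
        rw [hNv, ← Finset.mul_prod_erase Finset.univ _ (Finset.mem_univ i₀)]
        have h3 : ∏ i ∈ Finset.univ.erase i₀, (((cls N i).card : ℤ) - 1) ≤
            ∏ i ∈ Finset.univ.erase i₀, ((g : ℤ) + 2) := by
          apply Finset.prod_le_prod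
          · intro i _
            have := one_le_cls hn0 N hN i
            omega
          · intro i _
            have := hle i
            omega
        rw [Finset.prod_const, Finset.card_erase_of_mem (Finset.mem_univ _), Finset.card_univ,
          Fintype.card_fin] at h3
        have h4 := one_le_cls hn0 N hN i₀
        apply mul_le_mul
        · omega
        · exact h3
        · apply Finset.prod_nonneg
          intro i _
          have := one_le_cls hn0 N hN i
          omega
        · omega
      have h5 : hTop (sumU d n) = ((g : ℤ) + 2) * ((g : ℤ) + 2) ^ (d - 1) := by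
        rw [hMv, ← pow_succ']
        congr 1
        omega
      have h6 : (g : ℤ) + 2 ≤ ((g : ℤ) + 2) ^ (d - 1) :=
        le_self_pow₀ (by omega) (by omega)
      rw [h5]
      intro heq
      nlinarith
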